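import Mathlib
import Pool.Agent.H2.F2.Ifu

/-!
The statement of the block FC2, uniformly in `2 ≤ p ≤ ε n`.
-/

set_option autoImplicit false

namespace Pool.Agent.H33.TDU

open Finset Classical
open Pool.Agent.H71.DN Pool.Agent.H71.DX Pool.Agent.H71.DR Pool.Agent.H71.HL Pool.Agent.H71.DC
open Pool.Agent.H71.TD Pool.Agent.H90.TDP

/-- The colouring of the defect edges exists, for all `2 ≤ p ≤ ε n`. -/
def FcSt2 (c : ℝ) (g : ℕ) : Prop :=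
  ∃ (K1 : ℕ) (f1 ξ0 : ℝ), 0 < f1 ∧ 0 < ξ0 ∧ ∀ δ : ℝ, 0 < δ →
    ∃ (e0 ε f0 : ℝ) (n0 : ℕ), 0 < e0 ∧ 0 < ε ∧ 0 < f0 ∧
      ∀ (V : Type) [Fintype V] (G : SimpleGraph V) (Δ p k KE KB : ℕ) (x ξ ζ f η e1 : ℝ)
        (ty : ℕ → Prop) (nd qt cl un : V → ℕ) (sf : ℕ → Finset V), n0 ≤ Fintype.card V →
        c * Fintype.card V ≤ Δ → 2 ≤ p → (p : ℝ) ≤ ε * Fintype.card V → 0 ≤ ξ → ξ ≤ ξ0 →
        0 ≤ f → f ≤ f0 → e1 ≤ e0 →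
        Str G Δ c x ξ ζ f k ty nd sf → Spl G k ty nd qt η KE KB f1 →
        Pool.Agent.H2.F2.Spl2 G k ty nd qt cl un e1 f1 →
        ∃ (φ : ℕ → V → V) (c0 : V → ℕ),
          Pool.Agent.H2.F2.FcU G Δ p k ty nd qt cl ((Δ + 2 * p - 2) / (12 * g)) K1 δ φ c0

end Pool.Agent.H33.TDU
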