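import Mathlib
import Pool.Agent.H33.TDU.StU
import Pool.Agent.H2.F2.Fc2

/-!
The block FC2: from `fc2`.
-/

set_option autoImplicit false

namespace Pool.Agent.H33.TDU

theorem fcSt2 (c : ℝ) (hc : 0 < c) (hc1 : c ≤ 1) (g : ℕ) (hg : 10 ≤ g) : FcSt2 c g := by
  obtain ⟨K1, h⟩ := Pool.Agent.H2.F2.fc2 c hc hc1
  obtain ⟨f1, ξ0, ε, hf1, hξ0, hε, h2⟩ := h g hg
  refine ⟨K1, f1, ξ0, hf1, hξ0, fun δ hδ => ?_⟩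
  obtain ⟨f0, n0, hf0, h3⟩ := h2 δ hδ
  refine ⟨1, ε, f0, n0, one_pos, hε, hf0, ?_⟩
  intro V _ G Δ p k KE KB x ξ ζ f η e1 ty nd qt cl un sf hn hcn _ hpε hξ hξ1 hf hf2 _ hS _ hP
  exact h3 V G Δ p k x ξ ζ f e1 ty nd qt cl un sf hn hcn hpε hξ hξ1 hf hf2 hS hP

end Pool.Agent.H33.TDU
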