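import Mathlib
import Pool.Agent.H33.TDU.FinU

/-!
CNTU: counting the labels at a vertex (compare `TDP/Cntp.lean`).
-/

set_option autoImplicit false

namespace Pool.Agent.H33.TDU

open Finset Classical
open Pool.Agent.H71.DN Pool.Agent.H71.DX Pool.Agent.H71.DR Pool.Agent.H71.HL Pool.Agent.H71.DC
open Pool.Agent.H71.TD Pool.Agent.H90.TDP Pool.Agent.H33.TDP

theorem cntFu {V : Type} [Fintype V] (G : SimpleGraph V) (Δ p k t : ℕ) (ty : ℕ → Prop)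
    (nd qt : V → ℕ) (φ : ℕ → V → V)
    (hF : FcB G Δ p k ty nd qt t φ) (v : V) :
    ((range (Δ + 2 * p)).filter fun ℓ => φ ℓ v ≠ v).card = dg (Fg G k ty nd) v := by
  unfold dg
  refine card_bij (fun ℓ _ => φ ℓ v) ?_ ?_ ?_
  · intro ℓ hℓ
    rw [mem_filter, mem_range] at hℓ
    rw [mem_filter]
    exact ⟨mem_univ _, hF.adj ℓ hℓ.1 v hℓ.2⟩
  · intro a ha b hb hab
    rw [mem_filter, mem_range] at ha hb
    by_contra hne
    exact hF.dis a ha.1 b hb.1 hne v ha.2 hab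
  · intro u hu
    rw [mem_filter] at hu
    obtain ⟨ℓ, hℓ, hu2⟩ := hF.cov v u hu.2
    refine ⟨ℓ, ?_, hu2⟩
    rw [mem_filter, mem_range]
    refine ⟨hℓ, ?_⟩
    rw [hu2]
    exact hu.2.ne'

theorem mulUu {V : Type} [Fintype V] (G : SimpleGraph V) (Δ p k t : ℕ) (ty : ℕ → Prop)
    (nd qt : V → ℕ) (κ : ℝ) (φ : ℕ → V → V) (cc : V → ℕ) (S : V → Finset ℕ)
    (hF : FcB G Δ p k ty nd qt t φ) (hG : GaP G Δ p k ty nd qt t κ φ cc S) (v : V) :
    mul (Δ + 2 * p) (Us φ S) v = dg (Fg G k ty nd) v + 2 * p := by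
  rw [← cntFu G Δ p k t ty nd qt φ hF v]
  unfold mul
  have h1 : ((range (Δ + 2 * p)).filter fun ℓ => v ∈ Us φ S ℓ) =
      ((range (Δ + 2 * p)).filter fun ℓ => φ ℓ v ≠ v) ∪ S v := by
    ext ℓ
    simp only [Us, mem_filter, mem_range, mem_univ, true_and, mem_union]
    constructor
    · rintro ⟨h3, h4 | h4⟩
      · exact Or.inl ⟨h3, h4⟩
      · exact Or.inr h4
    · rintro (h3 | h3)
      · exact ⟨h3.1, Or.inl h3.2⟩
      · exact ⟨mem_range.1 ((hG.S1 v).1 h3), Or.inr h3⟩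
  rw [h1, card_union_of_disjoint, (hG.S1 v).2]
  rw [disjoint_left]
  intro ℓ hℓ hℓ2
  rw [mem_filter] at hℓ
  exact hℓ.2 (hG.fr v ℓ hℓ2)

end Pool.Agent.H33.TDU
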