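import Mathlib
import Pool.Agent.H33.TDP.Cts

/-!
The decomposition of the parts into exactly perfect matchings (`ctsE`, `ctsB`) with `Δ + 2 p` labels, uniformly in
`p ≤ ε #C`.
-/

set_option autoImplicit false

namespace Pool.Agent.H33.TDU

open Finset Classical
open Pool.Agent.H71.DN Pool.Agent.H71.DX Pool.Agent.H71.DR Pool.Agent.H71.HL Pool.Agent.H71.DC
open Pool.Agent.H71.TD Pool.Agent.H90.TDP Pool.Agent.H33.TDP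

theorem ctsEu (c x : ℝ) (g : ℕ) (hc : 0 < c) (hc1 : c ≤ 1) (hx : 0 < x) (hx1 : x ≤ 1)
    (hg : 2 ≤ g) :
    ∃ (κ ρ η ε : ℝ) (K0 n0 : ℕ), 0 < κ ∧ 0 < ρ ∧ 0 < η ∧ 0 < ε ∧ 1 ≤ K0 ∧
      ∀ (V : Type) [Fintype V] (G : SimpleGraph V) (Δ p t : ℕ) (C XA XB YA YB : Finset V),
        1 ≤ p → (p : ℝ) ≤ ε * C.card →
        t = (Δ + 2 * p - 2) / (12 * g) →
        n0 ≤ C.card → c * C.card ≤ Δ → (Δ : ℝ) + 2 * p ≤ 2 * C.card →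
        (∀ v ∈ C, dgi G C v ≤ Δ ∧ (Δ : ℝ) ≤ dgi G C v + ρ * C.card) →
        XPc G C (c / 128) x x →
        XA ⊆ C → XB ⊆ C → YA ⊆ C → YB ⊆ C →
        Disjoint XA XB → Disjoint XA YA → Disjoint XA YB → Disjoint XB YA → Disjoint XB YB →
        Disjoint YA YB → (∀ v ∈ C, v ∈ XA ∨ v ∈ XB ∨ v ∈ YA ∨ v ∈ YB) →
        XA.card = XB.card → YA.card = YB.card →
        (∀ Z, (Z = XA ∨ Z = XB ∨ Z = YA ∨ Z = YB) → SmPQ G C C Z (1 / 4) η K0) →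
        ∀ U : ℕ → Finset V, (∀ ℓ < Δ + 2 * p, ((U ℓ ∩ C).card : ℝ) ≤ κ * C.card) →
          (∀ v ∈ C, dgi G C v + mul (Δ + 2 * p) U v = Δ + 2 * p) →
          (∀ ℓ, T1 p t ℓ → Disjoint (U ℓ) (XA ∪ XB)) →
          (∀ ℓ, T2 p t ℓ → Disjoint (U ℓ) (YA ∪ YB)) →
          (∀ ℓ < Δ + 2 * p, Even (C \ U ℓ).card) →
          ∃ mm : ℕ → V → V, PM G (Δ + 2 * p) (fun ℓ => U ℓ ∪ (univ \ C)) mm ∧
            ∀ ℓ < Δ + 2 * p, ∀ v ∈ C, v ∉ U ℓ → mm ℓ v ≠ v := by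
  obtain ⟨κ, ρ, η, K0, n0, hκ, hρ, hη, hK0, H⟩ := ctsE c x g hc hc1 hx hx1 hg
  refine ⟨κ, ρ / 2, η, min (ρ / 4) (c / 8), K0, n0, hκ, by positivity, hη,
    lt_min (by positivity) (by positivity), hK0, ?_⟩
  intro V _ G Δ p t C XA XB YA YB hp hpε ht hn hcn hΔn hdeg hX s1 s2 s3 s4 d1 d2 d3 d4 d5 d6 hcov
    cX cY hS U hUs hUm hU1 hU2 hUe
  obtain ⟨Δ', hΔ'⟩ : ∃ Δ' : ℕ, Δ' = Δ + 2 * p - 2 := ⟨_, rfl⟩
  have hL : Δ' + 2 = Δ + 2 * p := by omega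
  have hcast : (Δ' : ℝ) + 2 = Δ + 2 * p := by exact_mod_cast hL
  have hC0 : (0 : ℝ) ≤ C.card := Nat.cast_nonneg _
  have hn1 : 2 * (p : ℝ) ≤ ρ / 2 * C.card := by
    have h1 := mul_le_mul_of_nonneg_right (min_le_left (ρ / 4) (c / 8)) hC0
    linarith
  have hn2 : 8 * (p : ℝ) ≤ c * C.card := by
    have h1 := mul_le_mul_of_nonneg_right (min_le_right (ρ / 4) (c / 8)) hC0
    linarith
  have hp1 : (1 : ℝ) ≤ p := by exact_mod_cast hp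
  have h8 : 8 * p ≤ Δ := by
    have : (8 : ℝ) * p ≤ Δ := hn2.trans hcn
    exact_mod_cast this
  have ht' : t = Δ' / (12 * g) := by rw [hΔ']; exact ht
  have htL : 4 * p + 2 * t ≤ Δ + 2 * p := by
    have h1 : t ≤ Δ' / 24 := by
      rw [ht']
      exact Nat.div_le_div_left (by omega) (by norm_num)
    omega
  have hle : ∀ ℓ, ℓ < Δ' + 2 → ℓ < Δ + 2 * p := fun ℓ h => by omega
  obtain ⟨mm, hmm, hmm2⟩ := H V G Δ' C XA XB YA YB (by omega) (by linarith) (by linarith)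
    (fun v hv => ⟨by have := (hdeg v hv).1; omega, by have := (hdeg v hv).2; linarith⟩)
    hX s1 s2 s3 s4 d1 d2 d3 d4 d5 d6 hcov cX cY hS (fun ℓ => U (sg p t ℓ))
    (fun ℓ hℓ => hUs _ (sg_lt p t _ ℓ htL (hle ℓ hℓ)))
    (fun v hv => by rw [hL, mul_sg p t _ htL]; exact hUm v hv)
    (fun ℓ hℓ => hU1 _ (sg_T1 p t ℓ (by omega)))
    (fun ℓ hℓ hℓ2 => hU2 _ (sg_T2 p t ℓ (by omega) (by omega)))
    (fun ℓ hℓ => hUe _ (sg_lt p t _ ℓ htL (hle ℓ hℓ)))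
  rw [hL] at hmm hmm2
  refine ⟨fun ℓ => mm (sgi p t ℓ), pm_sg G p t _ htL (fun ℓ => U ℓ ∪ (univ \ C)) mm hmm, ?_⟩
  intro ℓ hℓ v hv hvU
  refine hmm2 _ (sgi_lt p t _ ℓ htL hℓ) v hv ?_
  show v ∉ U (sg p t (sgi p t ℓ))
  rw [sg_sgi]
  exact hvU

theorem ctsBu (c x : ℝ) (g : ℕ) (hc : 0 < c) (hc1 : c ≤ 1) (hx : 0 < x) (hx1 : x ≤ 1)
    (hg : 2 ≤ g) :
    ∃ (κ ρ η ε : ℝ) (K0 n0 : ℕ), 0 < κ ∧ 0 < ρ ∧ 0 < η ∧ 0 < ε ∧ 1 ≤ K0 ∧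
      ∀ (V : Type) [Fintype V] (G : SimpleGraph V) (Δ p t : ℕ) (A B XA XB YA YB : Finset V),
        1 ≤ p → (p : ℝ) ≤ ε * A.card →
        t = (Δ + 2 * p - 2) / (12 * g) →
        n0 ≤ A.card → A.card = B.card → Disjoint A B → 2 * c * A.card ≤ Δ →
        (Δ : ℝ) + 2 * p ≤ 2 * A.card →
        (∀ v ∈ A, dgi G B v ≤ Δ ∧ (Δ : ℝ) ≤ dgi G B v + ρ * A.card) →
        (∀ v ∈ B, dgi G A v ≤ Δ ∧ (Δ : ℝ) ≤ dgi G A v + ρ * A.card) →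
        XPQ G A B (c / 128) x x → XPQ G B A (c / 128) x x →
        Disjoint XA YA → Disjoint XB YB → XA ∪ YA = A → XB ∪ YB = B →
        XA.card = XB.card → YA.card = YB.card →
        SmPQ G A B XA (1 / 2) η K0 → SmPQ G A B YA (1 / 2) η K0 →
        SmPQ G B A XB (1 / 2) η K0 → SmPQ G B A YB (1 / 2) η K0 →
        ∀ U : ℕ → Finset V, (∀ ℓ < Δ + 2 * p, ((U ℓ ∩ (A ∪ B)).card : ℝ) ≤ κ * A.card) →
          (∀ v ∈ A, dgi G B v + mul (Δ + 2 * p) U v = Δ + 2 * p) →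
          (∀ v ∈ B, dgi G A v + mul (Δ + 2 * p) U v = Δ + 2 * p) →
          (∀ ℓ, T1 p t ℓ → Disjoint (U ℓ) (XA ∪ XB)) →
          (∀ ℓ, T2 p t ℓ → Disjoint (U ℓ) (YA ∪ YB)) →
          (∀ ℓ < Δ + 2 * p, (A \ U ℓ).card = (B \ U ℓ).card) →
          ∃ mm : ℕ → V → V,
            PM (bt G A B) (Δ + 2 * p) (fun ℓ => U ℓ ∪ (univ \ (A ∪ B))) mm ∧
            ∀ ℓ < Δ + 2 * p, ∀ v ∈ A ∪ B, v ∉ U ℓ → mm ℓ v ≠ v := by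
  obtain ⟨κ, ρ, η, K0, n0, hκ, hρ, hη, hK0, H⟩ := ctsB c x g hc hc1 hx hx1 hg
  refine ⟨κ, ρ / 2, η, min (ρ / 4) (c / 8), K0, n0, hκ, by positivity, hη,
    lt_min (by positivity) (by positivity), hK0, ?_⟩
  intro V _ G Δ p t A B XA XB YA YB hp hpε ht hn hAB hdis hcn hΔn hdA hdB hX1 hX2 d1 d2 hA hB cX
    cY S1 S2 S3 S4 U hUs hUA hUB hU1 hU2 hUe
  obtain ⟨Δ', hΔ'⟩ : ∃ Δ' : ℕ, Δ' = Δ + 2 * p - 2 := ⟨_, rfl⟩
  have hL : Δ' + 2 = Δ + 2 * p := by omega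
  have hcast : (Δ' : ℝ) + 2 = Δ + 2 * p := by exact_mod_cast hL
  have hC0 : (0 : ℝ) ≤ A.card := Nat.cast_nonneg _
  have hn1 : 2 * (p : ℝ) ≤ ρ / 2 * A.card := by
    have h1 := mul_le_mul_of_nonneg_right (min_le_left (ρ / 4) (c / 8)) hC0
    linarith
  have hn2 : 8 * (p : ℝ) ≤ c * A.card := by
    have h1 := mul_le_mul_of_nonneg_right (min_le_right (ρ / 4) (c / 8)) hC0
    linarith
  have hp1 : (1 : ℝ) ≤ p := by exact_mod_cast hp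
  have hA0 : (0 : ℝ) ≤ c * A.card := by positivity
  have h8 : 8 * p ≤ Δ := by
    have : (8 : ℝ) * p ≤ Δ := by linarith
    exact_mod_cast this
  have ht' : t = Δ' / (12 * g) := by rw [hΔ']; exact ht
  have htL : 4 * p + 2 * t ≤ Δ + 2 * p := by
    have h1 : t ≤ Δ' / 24 := by
      rw [ht']
      exact Nat.div_le_div_left (by omega) (by norm_num)
    omega
  have hle : ∀ ℓ, ℓ < Δ' + 2 → ℓ < Δ + 2 * p := fun ℓ h => by omega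
  obtain ⟨mm, hmm, hmm2⟩ := H V G Δ' A B XA XB YA YB (by omega) hAB hdis (by linarith)
    (by linarith)
    (fun v hv => ⟨by have := (hdA v hv).1; omega, by have := (hdA v hv).2; linarith⟩)
    (fun v hv => ⟨by have := (hdB v hv).1; omega, by have := (hdB v hv).2; linarith⟩)
    hX1 hX2 d1 d2 hA hB cX cY S1 S2 S3 S4 (fun ℓ => U (sg p t ℓ))
    (fun ℓ hℓ => hUs _ (sg_lt p t _ ℓ htL (hle ℓ hℓ)))
    (fun v hv => by rw [hL, mul_sg p t _ htL]; exact hUA v hv)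
    (fun v hv => by rw [hL, mul_sg p t _ htL]; exact hUB v hv)
    (fun ℓ hℓ => hU1 _ (sg_T1 p t ℓ (by omega)))
    (fun ℓ hℓ hℓ2 => hU2 _ (sg_T2 p t ℓ (by omega) (by omega)))
    (fun ℓ hℓ => hUe _ (sg_lt p t _ ℓ htL (hle ℓ hℓ)))
  rw [hL] at hmm hmm2
  refine ⟨fun ℓ => mm (sgi p t ℓ),
    pm_sg (bt G A B) p t _ htL (fun ℓ => U ℓ ∪ (univ \ (A ∪ B))) mm hmm, ?_⟩
  intro ℓ hℓ v hv hvU
  refine hmm2 _ (sgi_lt p t _ ℓ htL hℓ) v hv ?_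
  show v ∉ U (sg p t (sgi p t ℓ))
  rw [sg_sgi]
  exact hvU

end Pool.Agent.H33.TDU
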