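import Mathlib
import Pool.Agent.H65.SP2.Spl2
import Pool.Agent.H71.TD.Cnt
import Pool.Agent.H46.G2.St
import Pool.Agent.H33.TDU.StU
import Pool.Agent.H33.TDU.CtsU
import Pool.Agent.H33.TDU.FinU
import Pool.Agent.H33.TDU.CntU

/-!
MNXU: `(p, 1)`-total labelling of a regular graph with a structure at the scale `x`, uniformly in `2 ≤ p ≤ ε n`, from the
statements of the blocks FC2 and GA2 (compare `TDP/MnXp.lean`).
-/

set_option autoImplicit false

namespace Pool.Agent.H33.TDU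

open Finset Classical
open Pool.Agent.H71.DN Pool.Agent.H71.DX Pool.Agent.H71.DR Pool.Agent.H71.HL Pool.Agent.H71.DC
open Pool.Agent.H71.TD Pool.Agent.H90.TDP Pool.Agent.H33.TDP

private theorem smm {V : Type} [Fintype V] (G : SimpleGraph V) (P Q X : Finset V)
    (x η η' : ℝ) (K : ℕ) (h : η ≤ η') (hS : SmPQ G P Q X x η K) : SmPQ G P Q X x η' K :=
  fun b hb i => (hS b hb i).trans (mul_le_mul_of_nonneg_right h (Nat.cast_nonneg _))

private theorem qsd {V : Type} [Fintype V] (nd qt : V → ℕ) (i a b : ℕ) (h : a ≠ b) :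
    Disjoint (qs nd qt i a) (qs nd qt i b) := by
  rw [disjoint_left]
  intro v hv hv2
  have h1 := (mem_filter.1 hv).2.2
  have h2 := (mem_filter.1 hv2).2.2
  exact h (h1.symm.trans h2)

theorem mnXU (c x : ℝ) (hc : 0 < c) (hc1 : c ≤ 1) (hx : 0 < x) (hx1 : x ≤ 1)
    (hfc0 : ∀ g, 10 ≤ g → FcSt2 c g) (hga0 : Pool.Agent.H46.G2.GaSt2 c x) :
    ∃ ξ0 : ℝ, 0 < ξ0 ∧ ∀ ξ : ℝ, 0 < ξ → ξ ≤ ξ0 → ∃ (f0 ε : ℝ) (n0 : ℕ), 0 < f0 ∧ 0 < ε ∧
      ∀ (V : Type) [Fintype V] (G : SimpleGraph V) (Δ p k : ℕ) (f : ℝ) (ty : ℕ → Prop)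
        (nd : V → ℕ) (sf : ℕ → Finset V), n0 ≤ Fintype.card V → c * Fintype.card V ≤ Δ →
        2 ≤ p → (p : ℝ) ≤ ε * Fintype.card V →
        0 ≤ f → f ≤ f0 → Str G Δ c x ξ (ξ / 8) f k ty nd sf →
        Lab G p (Δ + 2 * p) := by
  obtain ⟨s, g0, hga⟩ := hga0
  obtain ⟨g, hg⟩ : ∃ g : ℕ, g = max g0 10 := ⟨_, rfl⟩
  have hg0 : g0 ≤ g := by rw [hg]; exact le_max_left _ _
  have hg3 : 10 ≤ g := by rw [hg]; exact le_max_right _ _
  have hg2 : 2 ≤ g := by omega
  obtain ⟨κE, ρE, ηE, εE, KE, nE, hκE, hρE, hηE, hεE, hKE, HE⟩ := ctsEu c x g hc hc1 hx hx1 hg2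
  obtain ⟨κB, ρB, ηB, εB, KB, nB, hκB, hρB, hηB, hεB, hKB, HB⟩ := ctsBu c x g hc hc1 hx hx1 hg2
  obtain ⟨κ, hκ⟩ : ∃ κ : ℝ, κ = min κE κB * (c / 2) := ⟨_, rfl⟩
  have hκ0 : 0 < κ := by
    rw [hκ]
    exact mul_pos (lt_min hκE hκB) (by positivity)
  obtain ⟨K1, f1, ξ2, hf1, hξ2, hfc⟩ := hfc0 g hg3
  obtain ⟨ξ1, hξ1, hga2⟩ := hga g hg0 K1 κ hκ0
  obtain ⟨η, hη⟩ : ∃ η : ℝ, η = min (min ηE ηB) (1 / 100) := ⟨_, rfl⟩
  have hη0 : 0 < η := by
    rw [hη]
    exact lt_min (lt_min hηE hηB) (by norm_num)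
  have hη1 : η ≤ ηE := by
    rw [hη]
    exact (min_le_left _ _).trans (min_le_left _ _)
  have hη2 : η ≤ ηB := by
    rw [hη]
    exact (min_le_left _ _).trans (min_le_right _ _)
  have hη3 : η ≤ 1 / 100 := by
    rw [hη]
    exact min_le_right _ _
  obtain ⟨ξ3, hξ3, hspl0⟩ := Pool.Agent.H65.SP2.spl2 c η f1 KE KB s hc hc1 hη0 hf1
  obtain ⟨ξ0, hξ0⟩ : ∃ ξ0 : ℝ, ξ0 = min (min (min ξ1 ξ2) ξ3)
    (min (c / 4) (min (ρE * (c / 2)) (ρB * (c / 2)))) := ⟨_, rfl⟩
  have a1 : ξ0 ≤ ξ1 := by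
    rw [hξ0]
    exact (min_le_left _ _).trans ((min_le_left _ _).trans (min_le_left _ _))
  have a2 : ξ0 ≤ ξ2 := by
    rw [hξ0]
    exact (min_le_left _ _).trans ((min_le_left _ _).trans (min_le_right _ _))
  have a3 : ξ0 ≤ ξ3 := by
    rw [hξ0]
    exact (min_le_left _ _).trans (min_le_right _ _)
  have a4 : ξ0 ≤ c / 4 := by
    rw [hξ0]
    exact (min_le_right _ _).trans (min_le_left _ _)
  have a5 : ξ0 ≤ ρE * (c / 2) := by
    rw [hξ0]
    exact (min_le_right _ _).trans ((min_le_right _ _).trans (min_le_left _ _))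
  have a6 : ξ0 ≤ ρB * (c / 2) := by
    rw [hξ0]
    exact (min_le_right _ _).trans ((min_le_right _ _).trans (min_le_right _ _))
  refine ⟨ξ0, ?_, ?_⟩
  · rw [hξ0]
    refine lt_min (lt_min (lt_min hξ1 hξ2) hξ3) (lt_min (by positivity)
      (lt_min (by positivity) (by positivity)))
  intro ξ hξ hξle
  obtain ⟨e4, δ, ε4, f4, n4, he4, hδ, hε4, hf4, hga3⟩ :=
    hga2 ξ (ξ / 8) hξ (hξle.trans a1) (by positivity)
  obtain ⟨e5, ε5, f5, n5, he5, hε5, hf5, hfc2⟩ := hfc δ hδ
  obtain ⟨f3, n3, hf3, hspl⟩ := hspl0 (min e4 e5) (lt_min he4 he5)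
  obtain ⟨N, hN⟩ : ∃ N : ℕ, N = ⌈2 / c * ((nE + nB : ℕ) : ℝ)⌉₊ := ⟨_, rfl⟩
  refine ⟨min (min f3 f4) f5,
    min (min ε4 ε5) (min (c / 4) (min (εE * (c / 2)) (εB * (c / 2)))),
    max (max n3 n4) (max n5 N), lt_min (lt_min hf3 hf4) hf5,
    lt_min (lt_min hε4 hε5) (lt_min (by positivity) (lt_min (by positivity) (by positivity))), ?_⟩
  intro V _ G Δ p k f ty nd sf hn hcΔ hp2 hpε hf hfle hS
  have hp : 1 ≤ p := by omega
  have b1 : n3 ≤ Fintype.card V := (le_max_left _ _).trans ((le_max_left _ _).trans hn)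
  have b2 : n4 ≤ Fintype.card V := (le_max_right _ _).trans ((le_max_left _ _).trans hn)
  have b3 : n5 ≤ Fintype.card V := (le_max_left _ _).trans ((le_max_right _ _).trans hn)
  have b4 : N ≤ Fintype.card V := (le_max_right _ _).trans ((le_max_right _ _).trans hn)
  have c3 : f ≤ f3 := hfle.trans ((min_le_left _ _).trans (min_le_left _ _))
  have c4 : f ≤ f4 := hfle.trans ((min_le_left _ _).trans (min_le_right _ _))
  have c5 : f ≤ f5 := hfle.trans (min_le_right _ _)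
  have hVn : (0 : ℝ) ≤ Fintype.card V := Nat.cast_nonneg _
  have d4 : (p : ℝ) ≤ ε4 * Fintype.card V := hpε.trans (mul_le_mul_of_nonneg_right
    ((min_le_left _ _).trans (min_le_left _ _)) hVn)
  have d5 : (p : ℝ) ≤ ε5 * Fintype.card V := hpε.trans (mul_le_mul_of_nonneg_right
    ((min_le_left _ _).trans (min_le_right _ _)) hVn)
  have d6 : (p : ℝ) ≤ c / 4 * Fintype.card V := hpε.trans (mul_le_mul_of_nonneg_right
    ((min_le_right _ _).trans (min_le_left _ _)) hVn)
  have d7 : (p : ℝ) ≤ εE * (c / 2) * Fintype.card V := hpε.trans (mul_le_mul_of_nonneg_right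
    ((min_le_right _ _).trans ((min_le_right _ _).trans (min_le_left _ _))) hVn)
  have d8 : (p : ℝ) ≤ εB * (c / 2) * Fintype.card V := hpε.trans (mul_le_mul_of_nonneg_right
    ((min_le_right _ _).trans ((min_le_right _ _).trans (min_le_right _ _))) hVn)
  obtain ⟨un, hun1, hun2, hga4⟩ := hga3 V G Δ p k f ty nd sf b2 hcΔ hp2 d4 hf c4 hS
  obtain ⟨qt, cl, hSp, hSp2⟩ := hspl V G Δ k x ξ (ξ / 8) f ty nd sf b1 hcΔ hξ.le
    (hξle.trans a3) hf c3 hS un hun1 hun2
  obtain ⟨φ, c0, hFU⟩ := hfc2 V G Δ p k KE KB x ξ (ξ / 8) f η (min e4 e5) ty nd qt cl un sf b3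
    hcΔ hp2 d5 hξ.le (hξle.trans a2) hf c5 (min_le_right _ _) hS hSp hSp2
  obtain ⟨cc, S, hG⟩ := hga4 KE KB η f1 (min e4 e5) qt cl φ c0 hη3 (min_le_left _ _) hSp hSp2 hFU
  have hF := fcB_of hFU
  obtain ⟨n, hnn⟩ : ∃ n : ℝ, n = Fintype.card V := ⟨_, rfl⟩
  rw [← hnn] at d6 d7 d8
  have hn0 : 0 ≤ n := by
    rw [hnn]
    exact Nat.cast_nonneg _
  have hcard : ∀ S : Finset V, (S.card : ℝ) ≤ n := fun S => by
    rw [hnn]
    exact_mod_cast card_le_univ S
  have hcn : c * n ≤ Δ := by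
    rw [hnn]
    exact hcΔ
  have hξc : ξ ≤ c / 4 := hξle.trans a4
  have hNr : 2 / c * ((nE + nB : ℕ) : ℝ) ≤ n := by
    have h1 : 2 / c * ((nE + nB : ℕ) : ℝ) ≤ N := by
      rw [hN]
      exact Nat.le_ceil _
    have h2 : (N : ℝ) ≤ n := by
      rw [hnn]
      exact_mod_cast b4
    exact h1.trans h2
  have hNr2 : ((nE + nB : ℕ) : ℝ) ≤ c / 2 * n := by
    have h1 : c / 2 * (2 / c * ((nE + nB : ℕ) : ℝ)) ≤ c / 2 * n :=
      mul_le_mul_of_nonneg_left hNr (by positivity)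
    have h2 : c / 2 * (2 / c * ((nE + nB : ℕ) : ℝ)) = ((nE + nB : ℕ) : ℝ) := by
      field_simp
    linarith
  have hΔξ : ξ * n ≤ Δ / 4 := by
    have h1 : ξ * n ≤ c / 4 * n := mul_le_mul_of_nonneg_right hξc hn0
    linarith
  have h4p : (4 : ℝ) * p ≤ Δ := by linarith
  have hbig : ∀ i < k, (Δ : ℝ) + 2 * p ≤ 2 * (pt nd (2 * i)).card ∧ c / 2 * n ≤ (pt nd (2 * i)).card := by
    intro i hi
    have h1 := hS.big i hi
    rw [← hnn] at h1
    constructor
    · linarith
    · have h2 : (0 : ℝ) ≤ Δ := Nat.cast_nonneg _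
      linarith
  obtain ⟨t, ht⟩ : ∃ t : ℕ, t = (Δ + 2 * p - 2) / (12 * g) := ⟨_, rfl⟩
  rw [← ht] at hF hG
  have hmul := fun v => mulUu G Δ p k _ ty nd qt κ φ cc S hF hG v
  have hsmall : ∀ (ℓ : ℕ) (Z : Finset V), ℓ < Δ + 2 * p → (∀ v ∈ Z, nd v < 2 * k) →
      (((Us φ S ℓ ∩ Z).card : ℕ) : ℝ) ≤ κ * n := by
    intro ℓ Z hℓ hSn
    have h1 := hG.sm ℓ hℓ
    rw [← hnn] at h1
    refine le_trans ?_ h1
    have h2 : (Us φ S ℓ ∩ Z).card ≤
        (univ.filter fun v => nd v < 2 * k ∧ (φ ℓ v ≠ v ∨ ℓ ∈ S v)).card := by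
      refine card_le_card fun v hv => ?_
      rw [mem_inter, Us, mem_filter] at hv
      rw [mem_filter]
      exact ⟨mem_univ _, hSn v hv.2, hv.1.2⟩
    exact_mod_cast h2
  have hd1 : ∀ (ℓ : ℕ) (Z : Finset V), T1 p t ℓ → (∀ v ∈ Z, nd v < 2 * k ∧ qt v < 2) →
      Disjoint (Us φ S ℓ) Z := by
    intro ℓ Z hℓ hSn
    rw [disjoint_left]
    intro v hv hv2
    obtain ⟨h1, h2⟩ := hSn v hv2
    rcases (mem_filter.1 hv).2 with h4 | h4
    · exact h4 (hF.t1 ℓ hℓ v h1 h2)
    · exact hG.t1 v h1 h2 ℓ h4 hℓ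
  have hd2 : ∀ (ℓ : ℕ) (Z : Finset V), T2 p t ℓ → (∀ v ∈ Z, nd v < 2 * k ∧ 2 ≤ qt v) →
      Disjoint (Us φ S ℓ) Z := by
    intro ℓ Z hℓ hSn
    rw [disjoint_left]
    intro v hv hv2
    obtain ⟨h1, h2⟩ := hSn v hv2
    rcases (mem_filter.1 hv).2 with h4 | h4
    · exact h4 (hF.t2 ℓ hℓ v h1 h2)
    · exact hG.t2 v h1 h2 ℓ h4 hℓ
  refine finU G Δ p k t ty nd qt κ φ cc S hS.reg hS.le
    (fun i hi h => (hS.e1 i hi h).1) hF hG ?_ ?_
  · -- expanding parts
    intro i hi hty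
    obtain ⟨h1, h2⟩ := hbig i hi
    have he1 := (hS.e1 i hi hty).1
    have hq : ∀ v j, v ∈ qs nd qt i j → v ∈ pt nd (2 * i) := by
      intro v j hv
      have h3 := (mem_filter.1 hv).2.1
      have h4 : nd v ≠ 2 * i + 1 := fun h => by
        have h5 : v ∈ pt nd (2 * i + 1) := mem_filter.2 ⟨mem_univ _, h⟩
        rw [he1] at h5
        exact absurd h5 (notMem_empty _)
      exact mem_filter.2 ⟨mem_univ _, by omega⟩
    have hpt : ∀ v ∈ pt nd (2 * i), nd v = 2 * i := fun v hv => (mem_filter.1 hv).2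
    refine HE V G Δ p t (pt nd (2 * i)) (qs nd qt i 0) (qs nd qt i 1) (qs nd qt i 2)
      (qs nd qt i 3) hp ?_ ht ?_ ?_ h1 ?_ (hS.e3 i hi hty) (fun v hv => hq v _ hv) (fun v hv => hq v _ hv)
      (fun v hv => hq v _ hv) (fun v hv => hq v _ hv) (qsd nd qt i _ _ (by norm_num))
      (qsd nd qt i _ _ (by norm_num)) (qsd nd qt i _ _ (by norm_num))
      (qsd nd qt i _ _ (by norm_num)) (qsd nd qt i _ _ (by norm_num))
      (qsd nd qt i _ _ (by norm_num)) ?_ (hSp.eq i hi).1 (hSp.eq i hi).2 ?_ _ ?_ ?_ ?_ ?_ ?_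
    · have h3 := mul_le_mul_of_nonneg_left h2 hεE.le
      linarith
    · have h3 : ((nE + nB : ℕ) : ℝ) ≤ ((pt nd (2 * i)).card : ℝ) := hNr2.trans h2
      have h4 : nE + nB ≤ (pt nd (2 * i)).card := by exact_mod_cast h3
      omega
    · exact (mul_le_mul_of_nonneg_left (hcard _) hc.le).trans hcn
    · intro v hv
      refine ⟨?_, ?_⟩
      · rw [← hS.reg v]
        unfold dgi dg
        exact card_le_card (filter_subset_filter _ (subset_univ _))
      · have h3 := hS.e2 i hi hty v hv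
        rw [← hnn] at h3
        have h4 : ξ * n ≤ ρE * (pt nd (2 * i)).card := by
          calc ξ * n ≤ ρE * (c / 2) * n := mul_le_mul_of_nonneg_right (hξle.trans a5) hn0
            _ = ρE * (c / 2 * n) := by ring
            _ ≤ _ := mul_le_mul_of_nonneg_left h2 hρE.le
        linarith
    · intro v hv
      have h3 := hSp.lt v
      have h4 : ∀ j, qt v = j → v ∈ qs nd qt i j := fun j hj => by
        have h5 := hpt v hv
        exact mem_filter.2 ⟨mem_univ _, by omega, hj⟩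
      rcases (by omega : qt v = 0 ∨ qt v = 1 ∨ qt v = 2 ∨ qt v = 3) with h | h | h | h
      · exact Or.inl (h4 _ h)
      · exact Or.inr (Or.inl (h4 _ h))
      · exact Or.inr (Or.inr (Or.inl (h4 _ h)))
      · exact Or.inr (Or.inr (Or.inr (h4 _ h)))
    · rintro Z (rfl | rfl | rfl | rfl)
      · exact smm _ _ _ _ _ _ _ _ hη1 (hSp.smE i hi hty 0 (by norm_num))
      · exact smm _ _ _ _ _ _ _ _ hη1 (hSp.smE i hi hty 1 (by norm_num))
      · exact smm _ _ _ _ _ _ _ _ hη1 (hSp.smE i hi hty 2 (by norm_num))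
      · exact smm _ _ _ _ _ _ _ _ hη1 (hSp.smE i hi hty 3 (by norm_num))
    · intro ℓ hℓ
      refine (hsmall ℓ _ hℓ fun v hv => ?_).trans ?_
      · have := hpt v hv
        omega
      · calc κ * n ≤ κE * (c / 2) * n := by
              refine mul_le_mul_of_nonneg_right ?_ hn0
              rw [hκ]
              exact mul_le_mul_of_nonneg_right (min_le_left _ _) (by positivity)
          _ = κE * (c / 2 * n) := by ring
          _ ≤ _ := mul_le_mul_of_nonneg_left h2 hκE.le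
    · intro v hv
      have h3 := hmul v
      have h4 := dgE G k ty nd i hi hty he1 v hv
      have h5 := hS.reg v
      rw [h3]
      omega
    · intro ℓ hℓ
      refine hd1 ℓ _ hℓ fun v hv => ?_
      rw [mem_union] at hv
      rcases hv with hv | hv
      · have h6 := hpt v (hq v _ hv)
        have h7 := (mem_filter.1 hv).2.2
        omega
      · have h6 := hpt v (hq v _ hv)
        have h7 := (mem_filter.1 hv).2.2
        omega
    · intro ℓ hℓ
      refine hd2 ℓ _ hℓ fun v hv => ?_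
      rw [mem_union] at hv
      rcases hv with hv | hv
      · have h6 := hpt v (hq v _ hv)
        have h7 := (mem_filter.1 hv).2.2
        omega
      · have h6 := hpt v (hq v _ hv)
        have h7 := (mem_filter.1 hv).2.2
        omega
    · intro ℓ hℓ
      have h3 := hG.ev i hi hty ℓ hℓ
      have h4 : pt nd (2 * i) \ Us φ S ℓ =
          (pt nd (2 * i)).filter fun v => ¬ (φ ℓ v ≠ v ∨ ℓ ∈ S v) := by
        ext v
        simp only [Us, mem_sdiff, mem_filter, mem_univ, true_and]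
      rw [h4]
      exact h3
  · -- nearly bipartite parts
    intro i hi hty
    obtain ⟨h1, h2⟩ := hbig i hi
    have hAB := hS.b1 i hi hty
    have hptA : ∀ v ∈ pt nd (2 * i), nd v = 2 * i := fun v hv => (mem_filter.1 hv).2
    have hptB : ∀ v ∈ pt nd (2 * i + 1), nd v = 2 * i + 1 := fun v hv => (mem_filter.1 hv).2
    have hdis : Disjoint (pt nd (2 * i)) (pt nd (2 * i + 1)) := by
      rw [disjoint_left]
      intro v hv hv2
      have h3 := hptA v hv
      have h4 := hptB v hv2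
      omega
    obtain ⟨hbsA, hbsB⟩ := hSp.bs i hi hty
    have hq : ∀ v j, v ∈ qs nd qt i j → (j = 0 ∨ j = 2) → v ∈ pt nd (2 * i) := by
      intro v j hv hj
      have h3 := (mem_filter.1 hv).2
      refine mem_filter.2 ⟨mem_univ _, ?_⟩
      by_contra h4
      have h5 : nd v = 2 * i + 1 := by omega
      have h6 := hbsB v h5
      omega
    have hq' : ∀ v j, v ∈ qs nd qt i j → (j = 1 ∨ j = 3) → v ∈ pt nd (2 * i + 1) := by
      intro v j hv hj
      have h3 := (mem_filter.1 hv).2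
      refine mem_filter.2 ⟨mem_univ _, ?_⟩
      by_contra h4
      have h5 : nd v = 2 * i := by omega
      have h6 := hbsA v h5
      omega
    have hqA : qs nd qt i 0 ∪ qs nd qt i 2 = pt nd (2 * i) := by
      ext v
      rw [mem_union]
      constructor
      · rintro (h | h)
        · exact hq v 0 h (Or.inl rfl)
        · exact hq v 2 h (Or.inr rfl)
      · intro h
        have h3 := hptA v h
        rcases hbsA v h3 with h4 | h4
        · exact Or.inl (mem_filter.2 ⟨mem_univ _, by omega, h4⟩)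
        · exact Or.inr (mem_filter.2 ⟨mem_univ _, by omega, h4⟩)
    have hqB : qs nd qt i 1 ∪ qs nd qt i 3 = pt nd (2 * i + 1) := by
      ext v
      rw [mem_union]
      constructor
      · rintro (h | h)
        · exact hq' v 1 h (Or.inl rfl)
        · exact hq' v 3 h (Or.inr rfl)
      · intro h
        have h3 := hptB v h
        rcases hbsB v h3 with h4 | h4
        · exact Or.inl (mem_filter.2 ⟨mem_univ _, by omega, h4⟩)
        · exact Or.inr (mem_filter.2 ⟨mem_univ _, by omega, h4⟩)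
    have hξB : ξ * n ≤ ρB * (pt nd (2 * i)).card := by
      calc ξ * n ≤ ρB * (c / 2) * n := mul_le_mul_of_nonneg_right (hξle.trans a6) hn0
        _ = ρB * (c / 2 * n) := by ring
        _ ≤ _ := mul_le_mul_of_nonneg_left h2 hρB.le
    refine HB V G Δ p t (pt nd (2 * i)) (pt nd (2 * i + 1)) (qs nd qt i 0) (qs nd qt i 1)
      (qs nd qt i 2) (qs nd qt i 3) hp ?_ ht ?_ hAB hdis ?_ h1 ?_ ?_ (hS.b4 i hi hty) (hS.b5 i hi hty)
      (qsd nd qt i _ _ (by norm_num)) (qsd nd qt i _ _ (by norm_num)) hqA hqB (hSp.eq i hi).1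
      (hSp.eq i hi).2 (smm _ _ _ _ _ _ _ _ hη2 (hSp.smA i hi hty 0 (Or.inl rfl)))
      (smm _ _ _ _ _ _ _ _ hη2 (hSp.smA i hi hty 2 (Or.inr rfl)))
      (smm _ _ _ _ _ _ _ _ hη2 (hSp.smB i hi hty 1 (Or.inl rfl)))
      (smm _ _ _ _ _ _ _ _ hη2 (hSp.smB i hi hty 3 (Or.inr rfl))) _ ?_ ?_ ?_ ?_ ?_ ?_
    · have h3 := mul_le_mul_of_nonneg_left h2 hεB.le
      linarith
    · have h3 : ((nE + nB : ℕ) : ℝ) ≤ ((pt nd (2 * i)).card : ℝ) := hNr2.trans h2
      have h4 : nE + nB ≤ (pt nd (2 * i)).card := by exact_mod_cast h3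
      omega
    · have h3 : (pt nd (2 * i) ∪ pt nd (2 * i + 1)).card = 2 * (pt nd (2 * i)).card := by
        rw [card_union_of_disjoint hdis, ← hAB]
        ring
      have h4 := hcard (pt nd (2 * i) ∪ pt nd (2 * i + 1))
      rw [h3] at h4
      push_cast at h4
      have h5 := (mul_le_mul_of_nonneg_left h4 hc.le).trans hcn
      linarith
    · intro v hv
      refine ⟨?_, ?_⟩
      · rw [← hS.reg v]
        unfold dgi dg
        exact card_le_card (filter_subset_filter _ (subset_univ _))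
      · have h3 := hS.b2 i hi hty v hv
        rw [← hnn] at h3
        linarith
    · intro v hv
      refine ⟨?_, ?_⟩
      · rw [← hS.reg v]
        unfold dgi dg
        exact card_le_card (filter_subset_filter _ (subset_univ _))
      · have h3 := hS.b3 i hi hty v hv
        rw [← hnn] at h3
        linarith
    · intro ℓ hℓ
      refine (hsmall ℓ _ hℓ fun v hv => ?_).trans ?_
      · rw [mem_union] at hv
        rcases hv with hv | hv
        · have := hptA v hv
          omega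
        · have := hptB v hv
          omega
      · calc κ * n ≤ κB * (c / 2) * n := by
              refine mul_le_mul_of_nonneg_right ?_ hn0
              rw [hκ]
              exact mul_le_mul_of_nonneg_right (min_le_right _ _) (by positivity)
          _ = κB * (c / 2 * n) := by ring
          _ ≤ _ := mul_le_mul_of_nonneg_left h2 hκB.le
    · intro v hv
      have h3 := hmul v
      have h4 := dgA G k ty nd i hi hty v hv
      have h5 := hS.reg v
      rw [h3]
      omega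
    · intro v hv
      have h3 := hmul v
      have h4 := dgB G k ty nd i hi hty v hv
      have h5 := hS.reg v
      rw [h3]
      omega
    · intro ℓ hℓ
      refine hd1 ℓ _ hℓ fun v hv => ?_
      rw [mem_union] at hv
      rcases hv with hv | hv
      · have h6 := hptA v (hq v _ hv (Or.inl rfl))
        have h7 := (mem_filter.1 hv).2.2
        omega
      · have h6 := hptB v (hq' v _ hv (Or.inl rfl))
        have h7 := (mem_filter.1 hv).2.2
        omega
    · intro ℓ hℓ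
      refine hd2 ℓ _ hℓ fun v hv => ?_
      rw [mem_union] at hv
      rcases hv with hv | hv
      · have h6 := hptA v (hq v _ hv (Or.inr rfl))
        have h7 := (mem_filter.1 hv).2.2
        omega
      · have h6 := hptB v (hq' v _ hv (Or.inr rfl))
        have h7 := (mem_filter.1 hv).2.2
        omega
    · intro ℓ hℓ
      have h3 := hG.ba i hi hty ℓ hℓ
      have h4 : ∀ P : Finset V, P \ Us φ S ℓ =
          P.filter fun v => ¬ (φ ℓ v ≠ v ∨ ℓ ∈ S v) := by
        intro P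
        ext v
        simp only [Us, mem_sdiff, mem_filter, mem_univ, true_and]
      rw [h4, h4]
      exact h3

end Pool.Agent.H33.TDU
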