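import Mathlib
import Pool.Agent.H33.TDU.MnXU
import Pool.Agent.H33.TDP.MnTp

/-!
MNTU: every large graph with maximum degree at least `c n` has a `(p, 1)`-total labelling with `Δ + 2 p` labels, uniformly in
`2 ≤ p ≤ ε n`, from the statements of the blocks FC2 and GA2 (compare `TDP/MnTp.lean`).
-/

set_option autoImplicit false

namespace Pool.Agent.H33.TDU

open Finset Classical
open Pool.Agent.H71.DN Pool.Agent.H71.DX Pool.Agent.H71.DR Pool.Agent.H71.HL Pool.Agent.H71.DC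
open Pool.Agent.H71.TD Pool.Agent.H90.TDP Pool.Agent.H33.TDP

private theorem pos_lb (S : Finset ℝ) (e : ℝ → ℝ) (he : ∀ x, 0 < e x) :
    ∃ ε : ℝ, 0 < ε ∧ ∀ x ∈ S, ε ≤ e x := by
  induction S using Finset.induction_on with
  | empty => exact ⟨1, one_pos, fun x hx => absurd hx (notMem_empty x)⟩
  | insert a s _ ih =>
    obtain ⟨ε, hε, h⟩ := ih
    refine ⟨min ε (e a), lt_min hε (he a), fun x hx => ?_⟩
    rcases mem_insert.1 hx with rfl | hx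
    · exact min_le_right _ _
    · exact (min_le_left _ _).trans (h x hx)

/-- The theorem for regular graphs. -/
theorem mnRU (c : ℝ) (hc : 0 < c) (hc1 : c ≤ 1)
    (hfc0 : ∀ g, 10 ≤ g → FcSt2 c g)
    (hga0 : ∀ x : ℝ, 0 < x → x ≤ 1 → Pool.Agent.H46.G2.GaSt2 c x) :
    ∃ (ε : ℝ) (n0 : ℕ), 0 < ε ∧ ∀ (V : Type) [Fintype V] (G : SimpleGraph V) (Δ p : ℕ),
      n0 ≤ Fintype.card V → c * Fintype.card V ≤ Δ → 2 ≤ p → (p : ℝ) ≤ ε * Fintype.card V →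
      (∀ v, dg G v = Δ) → Lab G p (Δ + 2 * p) := by
  have H : ∀ x : ℝ, ∃ ξ : ℝ, 0 < ξ ∧ (0 < x → ξ ≤ c * x / 1000) ∧ ∃ (f0 ε : ℝ) (n0 : ℕ),
      0 < f0 ∧ 0 < ε ∧
      (0 < x → x ≤ 1 → ∀ (V : Type) [Fintype V] (G : SimpleGraph V) (Δ p k : ℕ) (f : ℝ)
        (ty : ℕ → Prop) (nd : V → ℕ) (sf : ℕ → Finset V), n0 ≤ Fintype.card V →
        c * Fintype.card V ≤ Δ → 2 ≤ p → (p : ℝ) ≤ ε * Fintype.card V → 0 ≤ f → f ≤ f0 →
        Str G Δ c x ξ (ξ / 8) f k ty nd sf → Lab G p (Δ + 2 * p)) := by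
    intro x
    by_cases h : 0 < x
    · by_cases h1 : x ≤ 1
      · obtain ⟨ξ0, hξ0, hm⟩ := mnXU c x hc hc1 h h1 hfc0 (hga0 x h h1)
        have hpos : 0 < min ξ0 (c * x / 1000) := lt_min hξ0 (by positivity)
        obtain ⟨f0, ε, n0, hf0, hε, hm2⟩ := hm (min ξ0 (c * x / 1000)) hpos (min_le_left _ _)
        exact ⟨min ξ0 (c * x / 1000), hpos, fun _ => min_le_right _ _, f0, ε, n0, hf0, hε,
          fun _ _ => hm2⟩
      · exact ⟨c * x / 1000, by positivity, fun _ => le_refl _, 1, 1, 0, one_pos, one_pos,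
          fun _ h2 => absurd h2 h1⟩
    · exact ⟨1, one_pos, fun h2 => absurd h2 h, 1, 1, 0, one_pos, one_pos,
        fun h2 => absurd h2 h⟩
  choose ξf hξ hξ2 ff ef nf hf he hm using H
  obtain ⟨S, n0, hS, hstt⟩ := stt c hc hc1 ξf ff (fun x hx => ⟨hξ x, hξ2 x hx⟩) (fun x _ => hf x)
  obtain ⟨ε, hε, hle⟩ := pos_lb S ef he
  refine ⟨ε, n0 + S.sup nf, hε, ?_⟩
  intro V _ G Δ p hn hcΔ hp hpε hreg
  obtain ⟨x, k, ty, nd, sf, hxS, hstr⟩ := hstt V G Δ (by omega) hcΔ hreg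
  obtain ⟨hx, hx1⟩ := hS x hxS
  have h1 : nf x ≤ S.sup nf := Finset.le_sup hxS
  exact hm x hx hx1 V G Δ p k (ff x) ty nd sf (by omega) hcΔ hp
    (hpε.trans (mul_le_mul_of_nonneg_right (hle x hxS) (Nat.cast_nonneg _))) (hf x).le
    (le_refl _) hstr

/-- The main theorem. -/
theorem mnTU (c : ℝ) (hc : 0 < c) (hc1 : c ≤ 1)
    (hfc0 : ∀ g, 10 ≤ g → FcSt2 (c / 40) g)
    (hga0 : ∀ x : ℝ, 0 < x → x ≤ 1 → Pool.Agent.H46.G2.GaSt2 (c / 40) x) :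
    ∃ (ε : ℝ) (n0 : ℕ), 0 < ε ∧ ∀ (V : Type) [Fintype V] (G : SimpleGraph V) (Δ p : ℕ),
      n0 ≤ Fintype.card V → (∀ v, dg G v ≤ Δ) → c * Fintype.card V ≤ Δ → Δ ≤ Fintype.card V →
      2 ≤ p → (p : ℝ) ≤ ε * Fintype.card V → Lab G p (Δ + 2 * p) := by
  obtain ⟨ε, n1, hε, h1⟩ := mnRU (c / 40) (by positivity) (by linarith) hfc0 hga0
  obtain ⟨N, hN⟩ : ∃ N : ℕ, N = ⌈2 / c⌉₊ := ⟨_, rfl⟩
  refine ⟨ε, n1 + N + 1, hε, ?_⟩
  intro V _ G Δ p hn hΔ hcΔ hΔn hp hpε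
  have hn2 : (2 : ℝ) ≤ Δ := by
    have h2 : 2 / c ≤ N := by
      rw [hN]
      exact Nat.le_ceil _
    have h3 : (N : ℝ) ≤ Fintype.card V := by
      have : N ≤ Fintype.card V := by omega
      exact_mod_cast this
    have h4 : c * (2 / c) ≤ c * Fintype.card V := mul_le_mul_of_nonneg_left (h2.trans h3) hc.le
    have h5 : c * (2 / c) = 2 := by field_simp
    linarith
  have hn3 : 2 ≤ Δ := by exact_mod_cast hn2
  obtain ⟨V', _, G', e, he, hadj, hreg, hc1', hc2'⟩ := regl G Δ hn3 hΔ hΔn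
  have hVV : (Fintype.card V : ℝ) ≤ Fintype.card V' := by
    have : Fintype.card V ≤ Fintype.card V' := Fintype.card_le_of_injective e he
    exact_mod_cast this
  refine labE G G' e he hadj p (Δ + 2 * p) (h1 V' G' Δ p (by omega) ?_ hp
    (hpε.trans (mul_le_mul_of_nonneg_left hVV hε.le)) hreg)
  have h6 : Fintype.card V' ≤ 40 * Fintype.card V := by omega
  have h7 : (Fintype.card V' : ℝ) ≤ 40 * Fintype.card V := by exact_mod_cast h6
  calc c / 40 * (Fintype.card V' : ℝ) ≤ c / 40 * (40 * Fintype.card V) :=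
        mul_le_mul_of_nonneg_left h7 (by positivity)
    _ = c * Fintype.card V := by ring
    _ ≤ Δ := hcΔ

end Pool.Agent.H33.TDU
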