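import Mathlib
import Pool.Agent.H33.TDU.MnTU
import Pool.Agent.H33.TDP.Main
import Pool.Agent.H2.HV.FIN

/-!
The Havet-Yu bound `Δ + 2 p - 1` for all large dense graphs and all `p ≥ 1`, from the statements of the blocks FC2 and GA2:
`p = 1` by `mnT`, `2 ≤ p ≤ ε n` by `mnTU`, `p ≥ ε n` by `main_hv`.
-/

set_option autoImplicit false

namespace Pool.Agent.H33.TDU

open Finset Classical
open Pool.Agent.H71.DN Pool.Agent.H71.TD Pool.Agent.H90.TDP Pool.Agent.H33.TDP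

/-- `C Δ^(3/4) (log Δ)^(1/4) ≤ ε Δ` for all large `Δ`. -/
theorem log_small (C ε : ℝ) (hC : 0 < C) (hε : 0 < ε) : ∃ D : ℝ, ∀ d : ℝ, D ≤ d →
    C * d ^ (3 / 4 : ℝ) * (Real.log d) ^ (1 / 4 : ℝ) ≤ ε * d := by
  obtain ⟨K, hK⟩ : ∃ K : ℝ, K = 2 * C / ε := ⟨_, rfl⟩
  have hK0 : 0 < K := by rw [hK]; positivity
  refine ⟨max 1 (K ^ (8 : ℝ)), fun d hd => ?_⟩
  have hd1 : 1 ≤ d := (le_max_left _ _).trans hd
  have hd0 : 0 < d := by linarith
  have hd8 : K ^ (8 : ℝ) ≤ d := (le_max_right _ _).trans hd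
  have h1 : Real.log d ≤ 2 * d ^ (1 / 2 : ℝ) := by
    have h := Real.log_le_rpow_div hd0.le (by norm_num : (0 : ℝ) < 1 / 2)
    linarith
  have h2 : (Real.log d) ^ (1 / 4 : ℝ) ≤ 2 * d ^ (1 / 8 : ℝ) := by
    calc (Real.log d) ^ (1 / 4 : ℝ) ≤ (2 * d ^ (1 / 2 : ℝ)) ^ (1 / 4 : ℝ) :=
          Real.rpow_le_rpow (Real.log_nonneg hd1) h1 (by norm_num)
      _ = 2 ^ (1 / 4 : ℝ) * d ^ (1 / 8 : ℝ) := by
          rw [Real.mul_rpow (by norm_num) (by positivity), ← Real.rpow_mul hd0.le]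
          norm_num
      _ ≤ 2 * d ^ (1 / 8 : ℝ) := by
          refine mul_le_mul_of_nonneg_right ?_ (by positivity)
          calc (2 : ℝ) ^ (1 / 4 : ℝ) ≤ 2 ^ (1 : ℝ) :=
                Real.rpow_le_rpow_of_exponent_le (by norm_num) (by norm_num)
            _ = 2 := Real.rpow_one 2
  have h3 : K ≤ d ^ (1 / 8 : ℝ) := by
    calc K = (K ^ (8 : ℝ)) ^ (1 / 8 : ℝ) := by
          rw [← Real.rpow_mul hK0.le]
          norm_num
      _ ≤ d ^ (1 / 8 : ℝ) := Real.rpow_le_rpow (by positivity) hd8 (by norm_num)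
  have h4 : d ^ (3 / 4 : ℝ) * d ^ (1 / 8 : ℝ) * d ^ (1 / 8 : ℝ) = d := by
    rw [← Real.rpow_add hd0, ← Real.rpow_add hd0]
    norm_num
  have h5 : 2 * C = ε * K := by
    rw [hK]
    field_simp
  calc C * d ^ (3 / 4 : ℝ) * (Real.log d) ^ (1 / 4 : ℝ)
      ≤ C * d ^ (3 / 4 : ℝ) * (2 * d ^ (1 / 8 : ℝ)) :=
        mul_le_mul_of_nonneg_left h2 (by positivity)
    _ = ε * K * (d ^ (3 / 4 : ℝ) * d ^ (1 / 8 : ℝ)) := by rw [← h5]; ring
    _ ≤ ε * d ^ (1 / 8 : ℝ) * (d ^ (3 / 4 : ℝ) * d ^ (1 / 8 : ℝ)) :=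
        mul_le_mul_of_nonneg_right (mul_le_mul_of_nonneg_left h3 hε.le) (by positivity)
    _ = ε * (d ^ (3 / 4 : ℝ) * d ^ (1 / 8 : ℝ) * d ^ (1 / 8 : ℝ)) := by ring
    _ = ε * d := by rw [h4]

/-- For every `c > 0` there is `n0` such that all graphs with `n ≥ n0` vertices and maximum degree at least `c n` satisfy
the Havet-Yu bound for all `p ≥ 1`. -/
theorem hyu_all0 (c : ℝ) (hc : 0 < c)
    (hfc0 : ∀ c : ℝ, 0 < c → c ≤ 1 → ∀ g, 10 ≤ g → FcSt2 c g)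
    (hga0 : ∀ c : ℝ, 0 < c → c ≤ 1 → ∀ x : ℝ, 0 < x → x ≤ 1 → Pool.Agent.H46.G2.GaSt2 c x) :
    ∃ n0 : ℕ, ∀ (V : Type) [Fintype V] (G : SimpleGraph V) [DecidableRel G.Adj],
      n0 ≤ Fintype.card V → c * Fintype.card V ≤ G.maxDegree → ∀ p : ℕ, 1 ≤ p → HYu G p := by
  obtain ⟨c', hc'⟩ : ∃ c' : ℝ, c' = min c 1 := ⟨_, rfl⟩
  have hc0 : 0 < c' := by rw [hc']; exact lt_min hc one_pos
  have hc1 : c' ≤ 1 := by rw [hc']; exact min_le_right _ _
  have hcc : c' ≤ c := by rw [hc']; exact min_le_left _ _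
  obtain ⟨n1, h1⟩ := lab_all c' 1 le_rfl hc0 hc1
  obtain ⟨ε, n2, hε, h2⟩ := mnTU c' hc0 hc1 (hfc0 (c' / 40) (by positivity) (by linarith))
    (hga0 (c' / 40) (by positivity) (by linarith))
  obtain ⟨C, hC, h3⟩ := Pool.Agent.H2.HV.main_hv
  obtain ⟨D, hD⟩ := log_small C ε hC hε
  obtain ⟨N, hN⟩ : ∃ N : ℕ, N = ⌈(max D 2) / c'⌉₊ := ⟨_, rfl⟩
  refine ⟨n1 + n2 + N, fun V _ G _ hn hcΔ p hp => ?_⟩
  have hcΔ' : c' * Fintype.card V ≤ G.maxDegree :=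
    (mul_le_mul_of_nonneg_right hcc (Nat.cast_nonneg _)).trans hcΔ
  have hΔn : G.maxDegree ≤ Fintype.card V := by
    rcases isEmpty_or_nonempty V with hV | hV
    · simp [SimpleGraph.maxDegree]
    · exact G.maxDegree_lt_card_verts.le
  rcases Nat.lt_or_ge 1 p with hp2 | hp2
  · by_cases hpε : (p : ℝ) ≤ ε * Fintype.card V
    · exact hyu_of_lab G p hp (h2 V G G.maxDegree p (by omega) (dg_le_max G) hcΔ' hΔn hp2 hpε)
    · push Not at hpε
      have h4 : (max D 2) / c' ≤ Fintype.card V := by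
        have h5 : (max D 2) / c' ≤ N := by rw [hN]; exact Nat.le_ceil _
        have h6 : (N : ℝ) ≤ Fintype.card V := by
          have : N ≤ Fintype.card V := by omega
          exact_mod_cast this
        exact h5.trans h6
      rw [div_le_iff₀ hc0] at h4
      have h5 : max D 2 ≤ (G.maxDegree : ℝ) := by linarith
      have h6 : D ≤ (G.maxDegree : ℝ) := (le_max_left _ _).trans h5
      have h7 : (2 : ℝ) ≤ (G.maxDegree : ℝ) := (le_max_right _ _).trans h5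
      have h8 : 2 ≤ G.maxDegree := by exact_mod_cast h7
      have h9 := hD _ h6
      have h10 : ε * (G.maxDegree : ℝ) ≤ ε * Fintype.card V :=
        mul_le_mul_of_nonneg_left (by exact_mod_cast hΔn) hε.le
      exact h3 V G p h8 (by linarith)
  · have hp1 : p = 1 := by omega
    subst hp1
    exact hyu_of_lab G 1 le_rfl (h1 V G G.maxDegree (by omega) (dg_le_max G) hcΔ' hΔn)

end Pool.Agent.H33.TDU
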