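import Mathlib
import Pool.Agent.H33.TDU.MainU
import Pool.Agent.H33.TDU.FcSt2
import Pool.Agent.H46.G2.Gaz

/-!
The Havet-Yu bound `Δ + 2 p - 1` for all large dense graphs and all `p ≥ 1`.
-/

set_option autoImplicit false

namespace Pool.Agent.H33.TDU

open Pool.Agent.H33.TDP

/-- For every `c > 0` there is `n0` such that all graphs with `n ≥ n0` vertices and maximum degree at least `c n` satisfy
the Havet-Yu bound for all `p ≥ 1`. -/
theorem hyu_all (c : ℝ) (hc : 0 < c) :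
    ∃ n0 : ℕ, ∀ (V : Type) [Fintype V] (G : SimpleGraph V) [DecidableRel G.Adj],
      n0 ≤ Fintype.card V → c * Fintype.card V ≤ G.maxDegree → ∀ p : ℕ, 1 ≤ p → HYu G p :=
  hyu_all0 c hc (fun c h0 h1 g hg => fcSt2 c h0 h1 g hg)
    (fun c h0 h1 x hx hx1 => Pool.Agent.H46.G2.gaSt2 c x h0 h1 hx hx1)

end Pool.Agent.H33.TDU
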